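import Pool.Agent.helper60.MW.Spec

set_option autoImplicit false

/-! Row mw:BLK: pigeonhole over a block of levels -/

namespace Pool.Agent.MW

open MeasureTheory Set Pool.Agent.helper17.Worm

theorem BLK : BLK_stmt := by
  intro E b r hE hr hrb
  obtain ⟨n, hn⟩ : ∃ n : ℕ, n = 2 ^ b / r := ⟨_, rfl⟩
  have hn1 : 1 ≤ n := by
    rw [hn]
    exact (Nat.one_le_div_iff hr).mpr hrb
  have hnr : n * r ≤ 2 ^ b := by
    rw [hn]
    exact Nat.div_mul_le_self _ _
  have hnr2 : 2 ^ b ≤ 2 * (n * r) := by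
    have h1 : 2 ^ b < r * (n + 1) := by
      rw [hn]
      exact Nat.lt_mul_div_succ _ hr
    have h2 : r ≤ n * r := Nat.le_mul_of_pos_left _ hn1
    have h3 : r * (n + 1) = n * r + r := by ring
    omega
  have hsum : ∑ i ∈ Finset.range n, (E (2 ^ b + (i + 1) * r) - E (2 ^ b + i * r)) =
      E (2 ^ b + n * r) - E (2 ^ b) := by
    have := Finset.sum_range_sub (fun i => E (2 ^ b + i * r)) n
    simpa using this
  have hT : E (2 ^ b + n * r) - E (2 ^ b) ≤ E (2 ^ (b + 1)) - E (2 ^ b) := by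
    have h1 : E (2 ^ b + n * r) ≤ E (2 ^ (b + 1)) := hE (by rw [pow_succ]; omega)
    linarith
  obtain ⟨i, hi, hle⟩ : ∃ i ∈ Finset.range n, (n : ℝ) * (E (2 ^ b + (i + 1) * r) - E (2 ^ b + i * r)) ≤
      E (2 ^ (b + 1)) - E (2 ^ b) := by
    by_contra hcon
    push Not at hcon
    have h1 : ∑ i ∈ Finset.range n, (E (2 ^ (b + 1)) - E (2 ^ b)) <
        ∑ i ∈ Finset.range n, (n : ℝ) * (E (2 ^ b + (i + 1) * r) - E (2 ^ b + i * r)) :=
      Finset.sum_lt_sum_of_nonempty ⟨0, Finset.mem_range.mpr hn1⟩ hcon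
    rw [← Finset.mul_sum, hsum, Finset.sum_const, Finset.card_range, nsmul_eq_mul] at h1
    have h2 : (0 : ℝ) < n := by exact_mod_cast hn1
    exact absurd (lt_of_mul_lt_mul_left h1 h2.le) (not_lt.mpr hT)
  rw [Finset.mem_range] at hi
  refine ⟨2 ^ b + i * r, by omega, ?_, ?_⟩
  · have h1 : i * r + r ≤ n * r := by
      calc i * r + r = (i + 1) * r := by ring
        _ ≤ n * r := Nat.mul_le_mul_right _ hi
    rw [pow_succ]
    omega
  · have h0 : 0 ≤ E (2 ^ b + i * r + r) - E (2 ^ b + i * r) := by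
      have := hE (Nat.le_add_right (2 ^ b + i * r) r)
      linarith
    have he : 2 ^ b + (i + 1) * r = 2 ^ b + i * r + r := by ring
    rw [he] at hle
    have h2 : ((2 : ℝ) ^ b) ≤ 2 * (n * r) := by exact_mod_cast hnr2
    have hr0 : (0 : ℝ) ≤ r := Nat.cast_nonneg r
    calc (E (2 ^ b + i * r + r) - E (2 ^ b + i * r)) * 2 ^ b
        ≤ (E (2 ^ b + i * r + r) - E (2 ^ b + i * r)) * (2 * (n * r)) :=
          mul_le_mul_of_nonneg_left h2 h0
      _ = 2 * r * ((n : ℝ) * (E (2 ^ b + i * r + r) - E (2 ^ b + i * r))) := by ring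
      _ ≤ 2 * r * (E (2 ^ (b + 1)) - E (2 ^ b)) := mul_le_mul_of_nonneg_left hle (by positivity)

end Pool.Agent.MW
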