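import Pool.Agent.helper60.MW.SpecB

set_option autoImplicit false

/-! Row mw:ONE: area of the set in one tree -/

namespace Pool.Agent.MW

open MeasureTheory Set Pool.Agent.helper17.Worm

theorem ONE (hUAR : UAR_stmt) (hHAR : HAR_stmt) (hMSC : MSC_stmt) : ONE_stmt := by
  intro D hD L r K κ W hκ hκ8 hW hK
  have h1 := hUAR (D L) L κ W (fun x y => hD.nonneg L x y) hκ hκ8 hW
  have h2 := hHAR D hD L r K κ W hκ hκ8 hW hK
  have h3 : HH (D (L + r)) (L + r) κ W K ⊆
      UU (D L) L κ W ∪ (HH (D (L + r)) (L + r) κ W K \ UU (D L) L κ W) := by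
    intro z hz
    by_cases h : z ∈ UU (D L) L κ W
    · exact Or.inl h
    · exact Or.inr ⟨hz, h⟩
  have h4 : ∑' s : ℤ × ℤ, ENNReal.ofReal (D L s.1 s.2 / 4 ^ L) = mass D 0 := hMSC D hD L
  rw [h4] at h1
  exact (measure_mono h3).trans ((measure_union_le _ _).trans (add_le_add h1 h2))

end Pool.Agent.MW
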