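import Pool.Agent.helper60.MW.SpecB

set_option autoImplicit false

/-! Row mw:TRS: translation by an integer point -/

namespace Pool.Agent.MW

open MeasureTheory Set Pool.Agent.helper17.Worm

theorem TRS : TRS_stmt := by
  classical
  intro D L K κ W g z c hz
  obtain ⟨S, hS, hS2⟩ := hz
  refine ⟨S.image (fun s => (s.1 - 2 ^ L * c.1, s.2 - 2 ^ L * c.2)), ?_, ?_⟩
  · rw [Finset.card_image_of_injective, hS]
    intro s t hst
    simp only [Prod.mk.injEq, sub_left_inj] at hst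
    exact Prod.ext hst.1 hst.2
  · intro s hs
    rw [Finset.mem_image] at hs
    obtain ⟨t, ht, rfl⟩ := hs
    obtain ⟨h1, h2⟩ := hS2 t ht
    refine ⟨by simpa using h1, ?_⟩
    have h2L : (2 : ℝ) ^ L ≠ 0 := by positivity
    have hm : mv (g.1, g.2 - ((c.1 : ℂ) + (c.2 : ℂ) * Complex.I)) z =
        mv g z - ((c.1 : ℂ) + (c.2 : ℂ) * Complex.I) := by
      unfold mv
      ring
    have hre : (mv g z - ((c.1 : ℂ) + (c.2 : ℂ) * Complex.I)).re = (mv g z).re - c.1 := by simp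
    have him : (mv g z - ((c.1 : ℂ) + (c.2 : ℂ) * Complex.I)).im = (mv g z).im - c.2 := by simp
    rw [hm]
    unfold nbh at h2 ⊢
    rw [Complex.mem_reProdIm, mem_Icc, mem_Icc] at h2 ⊢
    rw [hre, him]
    push_cast
    have e1 : ((t.1 : ℝ) - 2 ^ L * c.1) / 2 ^ L = t.1 / 2 ^ L - c.1 := by field_simp
    have e2 : ((t.1 : ℝ) - 2 ^ L * c.1 + 1) / 2 ^ L = (t.1 + 1) / 2 ^ L - c.1 := by
      field_simp
      ring
    have e3 : ((t.2 : ℝ) - 2 ^ L * c.2) / 2 ^ L = t.2 / 2 ^ L - c.2 := by field_simp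
    have e4 : ((t.2 : ℝ) - 2 ^ L * c.2 + 1) / 2 ^ L = (t.2 + 1) / 2 ^ L - c.2 := by
      field_simp
      ring
    rw [e1, e2, e3, e4]
    obtain ⟨⟨a1, a2⟩, a3, a4⟩ := h2
    exact ⟨⟨by linarith, by linarith⟩, by linarith, by linarith⟩

end Pool.Agent.MW
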