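import Pool.Agent.helper60.MW.SpecB

set_option autoImplicit false

/-! Row mw:PLN: placement for the first scales -/

namespace Pool.Agent.MW

open MeasureTheory Set Pool.Agent.helper17.Worm

theorem PLN_sum (m n : ℕ) : ∑ j ∈ Finset.Ico m (m + n), kap j ≤ 1 / 2 ^ (m + 2) := by
  have h1 : ∑ j ∈ Finset.Ico m (m + n), kap j = 1 / 2 ^ (m + 2) - 1 / 2 ^ (m + n + 2) := by
    induction n with
    | zero => simp
    | succ n ih =>
      rw [← add_assoc, Finset.sum_Ico_succ_top (by omega), ih]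
      unfold kap
      rw [show m + n + 3 = (m + n + 2) + 1 by ring, show m + n + 1 + 2 = (m + n + 2) + 1 by ring,
        pow_succ]
      field_simp
      ring
  rw [h1]
  have : (0 : ℝ) ≤ 1 / 2 ^ (m + n + 2) := by positivity
  linarith

theorem PLN (hEXT : EXT_stmt) (hPLC : PLC_stmt) : PLN_stmt := by
  intro X hX hC hV a W K L hG q f hq hq1 hf
  obtain ⟨F, hF, hF0, hF1, hF2⟩ := hEXT q f hq hq1 hf
  obtain ⟨m, hm⟩ : ∃ m : ℕ, (1 : ℝ) / 2 ^ m ≤ (1 - q) / 4 := by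
    obtain ⟨m, hm⟩ := exists_pow_lt_of_lt_one (show (0 : ℝ) < (1 - q) / 4 by linarith)
      (show (1 / 2 : ℝ) < 1 by norm_num)
    refine ⟨m, ?_⟩
    rw [one_div_pow] at hm
    exact hm.le
  have hl0 : (0 : ℝ) ≤ (1 + q) / 2 := by linarith
  refine ⟨m, F '' Icc 0 ((1 + q) / 2), ⟨0, ⟨le_rfl, hl0⟩, hF0⟩, hF1, fun n => ?_⟩
  have hJ : ∀ j ∈ Finset.Ico m (m + n), Good (kap j) (kap j) (a j) (K j) (L j) (W j) ∧
      W j ≤ (1 - q) / 4 := by
    intro j hj
    have h1 : m ≤ j := (Finset.mem_Ico.mp hj).1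
    refine ⟨(hG j).1, (hG j).2.2.trans (le_trans ?_ hm)⟩
    exact one_div_le_one_div_of_le (by positivity) (pow_le_pow_right₀ (by norm_num) h1)
  have hS : (1 + q) / 2 + ∑ j ∈ Finset.Ico m (m + n), kap j ≤ 1 := by
    have h1 := PLN_sum m n
    have h2 : (1 : ℝ) / 2 ^ (m + 2) = (1 / 2 ^ m) / 4 := by
      rw [pow_add]
      field_simp
      norm_num
    rw [h2] at h1
    linarith
  obtain ⟨g, hg0, hg1, hg2⟩ := hPLC (X n) (hX n) (hC n) (hV n) F ((1 + q) / 2) ((1 - q) / 4) hF hF0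
    hl0 (by linarith) hF2 (Finset.Ico m (m + n)) kap kap a W K L hJ hS
  exact ⟨g, hg0, hg1, fun z hz j hj => hg2 z hz j hj⟩

end Pool.Agent.MW
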